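import Pool.Agent.Q291.HEA.Stm3
import Pool.Agent.Q150.HEA.HFIN

set_option autoImplicit false

/-! # Project HEA: job CON -/

namespace Pool.Agent.Q277.HEA.CONN

open Set Pool.Agent.Q291.HEA

variable {B : ℕ} [NeZero B] {e : ℕ → Bool}

/-- the closed cell is connected -/
theorem cell_conn (hA : Alt e) (hE : P_ENDS) (D : Set (Site B e)) (n : ℕ) (ω : Bond B e)
    (h : ∀ b ∈ cellb n ω, (lend 0 b ∈ D ↔ rend 0 b ∈ D)) :
    (rend n ω ∈ D ↔ lend n ω ∈ D) ∧ ∀ v ∈ inner n ω, (v ∈ D ↔ lend n ω ∈ D) := by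
  induction n generalizing ω with
  | zero =>
    refine ⟨(h ω (fun k _ => rfl)).symm, fun v hv => absurd hv.1 (by omega)⟩
  | succ n ih =>
    have hsub : ∀ p, ∀ b ∈ cellb n (upd ω n p), (lend 0 b ∈ D ↔ rend 0 b ∈ D) := by
      intro p b hb
      obtain ⟨-, -, -, -, h5, -⟩ := hE hA n ω 0
      exact h b ((h5 b).2 ⟨p, hb⟩)
    have hmid : ∀ i, (mid n i ω ∈ D ↔ lend (n + 1) ω ∈ D) := by
      intro i
      obtain ⟨h1, h2, -⟩ := hE hA n ω i
      have := (ih (upd ω n (i, false)) (hsub _)).1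
      rw [h1, h2] at this
      exact this
    refine ⟨?_, ?_⟩
    · obtain ⟨-, -, h3, h4, -⟩ := hE hA n ω 0
      have := (ih (upd ω n (0, true)) (hsub _)).1
      rw [h3, h4] at this
      exact this.trans (hmid 0)
    · intro v hv
      obtain ⟨-, -, -, -, -, h6, -⟩ := hE hA n ω 0
      rcases (h6 v).1 hv with ⟨j, rfl⟩ | ⟨⟨i, s⟩, hp⟩
      · exact hmid j
      · have h7 := (ih (upd ω n (i, s)) (hsub _)).2 v hp
        obtain ⟨h1, h2, h3, h4, -⟩ := hE hA n ω i
        cases s with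
        | false => rw [h1] at h7; exact h7
        | true => rw [h3] at h7; exact h7.trans (hmid i)

theorem t_CON : P_CON := by
  intro B _ e hA D hD hne
  have hE : P_ENDS := Pool.Agent.Q150.HEA.t_ENDS Pool.Agent.Q150.HEA.t_HFIN
  obtain ⟨-, -, -, h4, -, -, hmono, hex⟩ := Pool.Agent.Q150.HEA.t_HFIN (B := B) hA
  -- a level which contains `D`
  have hN : ∃ N, D ⊆ inner N (orig : Bond B e) := by
    choose f hf using hex
    obtain ⟨N, hN⟩ := (hD.image f).bddAbove
    exact ⟨N, fun v hv => hmono (hN ⟨v, hv, rfl⟩) (hf v)⟩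
  obtain ⟨N, hN⟩ := hN
  obtain ⟨v, hv⟩ := hne
  by_contra hcon
  push Not at hcon
  have h : ∀ b ∈ cellb N (orig : Bond B e), (lend 0 b ∈ D ↔ rend 0 b ∈ D) := by
    intro b _
    obtain ⟨h1, h2⟩ := hcon b
    constructor
    · intro hl
      exact h1 hl
    · intro hr
      by_contra hl
      exact h2 hl hr
  have h5 := (cell_conn hA hE D N orig h).2 v (hN hv)
  exact (h4 N orig).2.2.1 (hN (h5.1 hv))

end Pool.Agent.Q277.HEA.CONN
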