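import Pool.Agent.Q291.HEA.Stm3

set_option autoImplicit false

/-! # Project HEA: job GEN -/

namespace Pool.Agent.Q277.HEA.GEN

open MeasureTheory Filter Topology Set ProbabilityTheory Pool.Agent.Q291.HEA

theorem null_of_indep {Ω : Type} [MeasurableSpace Ω] (P : Measure Ω) [IsProbabilityMeasure P]
    (Y X : Ω → ℝ) (hY : Measurable Y) (hX : Measurable X) (hi : IndepFun Y X P)
    (hat : ∀ x, (P.map X) {x} = 0) : P {ω | X ω = Y ω} = 0 := by
  have h1 := (indepFun_iff_map_prod_eq_prod_map_map hY.aemeasurable hX.aemeasurable).1 hi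
  have : IsProbabilityMeasure (P.map X) := Measure.isProbabilityMeasure_map hX.aemeasurable
  have : IsProbabilityMeasure (P.map Y) := Measure.isProbabilityMeasure_map hY.aemeasurable
  have hS : MeasurableSet {z : ℝ × ℝ | z.2 = z.1} := measurableSet_eq_fun measurable_snd measurable_fst
  have h2 : P {ω | X ω = Y ω} = ((P.map Y).prod (P.map X)) {z : ℝ × ℝ | z.2 = z.1} := by
    rw [← h1, Measure.map_apply (hY.prodMk hX) hS]
    rfl
  rw [h2, Measure.prod_apply hS]
  rw [lintegral_eq_zero_iff (measurable_measure_prodMk_left hS)]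
  refine Eventually.of_forall fun y => ?_
  have h3 : Prod.mk y ⁻¹' {z : ℝ × ℝ | z.2 = z.1} = {y} := by
    ext x; simp
  change (P.map X) (Prod.mk y ⁻¹' {z : ℝ × ℝ | z.2 = z.1}) = 0
  rw [h3]
  exact hat y

theorem one (E : Type) (μ : Measure ℝ) [IsProbabilityMeasure μ] (hμ : ∀ x, μ {x} = 0)
    (S : Finset E) (c : E → ℝ) (hc : ∀ b, c b * c b = 1) (b0 : E) (hb0 : b0 ∈ S) :
    ∀ᵐ K ∂(Measure.infinitePi fun _ : E => μ), ∑ b ∈ S, c b * K b ≠ 0 := by
  classical
  set P := Measure.infinitePi fun _ : E => μ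
  let f : E → ℝ → ℝ := fun b x => if b = b0 then x else -(c b0 * c b) * x
  have hf : ∀ b, Measurable (f b) := by
    intro b
    by_cases h : b = b0
    · simp only [f, h, if_true]; exact measurable_id
    · simp only [f, h, if_false]; exact measurable_id.const_mul _
  have h1 := iIndepFun_infinitePi (P := fun _ : E => μ) (X := f) hf
  have hm : ∀ b, Measurable (fun ω : E → ℝ => f b (ω b)) := fun b =>
    (hf b).comp (measurable_pi_apply b)
  have h2 := h1.indepFun_finsetSum_of_notMem hm (Finset.notMem_erase b0 S)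
  have hY : Measurable (∑ j ∈ S.erase b0, fun ω : E → ℝ => f j (ω j)) := by
    have e0 : (∑ j ∈ S.erase b0, fun ω : E → ℝ => f j (ω j)) =
        fun ω => ∑ j ∈ S.erase b0, f j (ω j) := by
      funext ω; rw [Finset.sum_apply]
    rw [e0]
    exact Finset.measurable_sum _ fun j _ => hm j
  have h3 := null_of_indep P _ _ hY (hm b0) h2 (by
    intro x
    have e1 : (fun ω : E → ℝ => f b0 (ω b0)) = fun ω => ω b0 := by
      funext ω; simp [f]
    rw [e1, Measure.infinitePi_map_eval (fun _ : E => μ) b0]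
    exact hμ x)
  rw [ae_iff]
  refine measure_mono_null ?_ h3
  intro K hK
  simp only [mem_ofPred_eq, not_not, Finset.sum_apply] at hK ⊢
  rw [← Finset.add_sum_erase _ _ hb0] at hK
  have e2 : f b0 (K b0) = K b0 := by simp [f]
  have e3 : ∑ j ∈ S.erase b0, f j (K j) = -c b0 * ∑ j ∈ S.erase b0, c j * K j := by
    rw [Finset.mul_sum]
    refine Finset.sum_congr rfl fun j hj => ?_
    simp only [f, Finset.ne_of_mem_erase hj, if_false]
    ring
  rw [e2, e3]
  have h4 := hc b0
  linear_combination (c b0) * hK - (K b0) * h4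

theorem t_GEN : P_GEN := by
  classical
  intro E _ μ _ hμ
  have h1 : ∀ᵐ K ∂(Measure.infinitePi fun _ : E => μ), ∀ (S T : Finset E), S.Nonempty →
      ∑ b ∈ S, (if b ∈ T then (1 : ℝ) else -1) * K b ≠ 0 := by
    rw [ae_all_iff]
    intro S
    rw [ae_all_iff]
    intro T
    by_cases hS : S.Nonempty
    · obtain ⟨b0, hb0⟩ := hS
      filter_upwards [one E μ hμ S (fun b => if b ∈ T then (1 : ℝ) else -1)
        (fun b => by split_ifs <;> norm_num) b0 hb0] with K hK _
      exact hK
    · exact Eventually.of_forall fun K h => absurd h hS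
  filter_upwards [h1] with K hK S s hS
  have h2 := hK S (S.filter fun b => s b = true) hS
  have h3 : ∑ b ∈ S, sgn (s b) * K b =
      ∑ b ∈ S, (if b ∈ S.filter (fun b => s b = true) then (1 : ℝ) else -1) * K b := by
    refine Finset.sum_congr rfl fun b hb => ?_
    congr 1
    unfold sgn
    simp [hb]
  rw [h3]
  exact h2

end Pool.Agent.Q277.HEA.GEN
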