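import Pool.Agent.Q291.HEA.Stm3
import Pool.Agent.Q48.HEA.Base

set_option autoImplicit false

/-! # Project HEA: job HT -/

namespace Pool.Agent.Q277.HEA.HT

open MeasureTheory Filter Topology Set ProbabilityTheory Pool.Agent.Q291.HEA
open Pool.Agent.Q291.HEA.DB

theorem sinh_le {x : ℝ} (hx : 0 ≤ x) : Real.sinh x ≤ x * Real.cosh x := by
  have h := Convex.norm_image_sub_le_of_norm_hasDerivWithin_le (f := Real.sinh) (f' := Real.cosh)
    (s := Icc 0 x) (x := 0) (y := x) (C := Real.cosh x)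
    (fun y _ => (Real.hasDerivAt_sinh y).hasDerivWithinAt) (fun y hy => by
      rw [Real.norm_eq_abs, abs_of_pos (Real.cosh_pos y)]
      rw [Real.cosh_le_cosh, abs_of_nonneg hy.1, abs_of_nonneg hx]
      exact hy.2) (convex_Icc 0 x) ⟨le_rfl, hx⟩ ⟨hx, le_rfl⟩
  rw [Real.sinh_zero, sub_zero, sub_zero, Real.norm_eq_abs, Real.norm_eq_abs, abs_of_nonneg hx] at h
  have := le_abs_self (Real.sinh x)
  linarith

theorem abs_sinh_le (x : ℝ) : |Real.sinh x| ≤ |x| * Real.cosh x := by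
  rcases le_total 0 x with h | h
  · rw [abs_of_nonneg h, abs_of_nonneg (Real.sinh_nonneg_iff.2 h)]
    exact sinh_le h
  · have h1 := sinh_le (x := -x) (by linarith)
    rw [Real.sinh_neg, Real.cosh_neg] at h1
    rw [abs_of_nonpos h, abs_of_nonpos (Real.sinh_nonpos_iff.2 h)]
    exact h1

theorem F_abs_le_mul (x y : ℝ) : |F x y| ≤ |x| * |y| := by
  have hd : ∀ y : ℝ, HasDerivAt (fun y => F x y)
      (1 / 2 * (Real.sinh (x + y) / Real.cosh (x + y) + Real.sinh (x - y) / Real.cosh (x - y))) y := by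
    intro y
    have hc1 : 0 < Real.cosh (x + y) := Real.cosh_pos _
    have hc2 : 0 < Real.cosh (x - y) := Real.cosh_pos _
    have h1 : HasDerivAt (fun y : ℝ => Real.log (Real.cosh (x + y)))
        (Real.sinh (x + y) * 1 / Real.cosh (x + y)) y :=
      (((hasDerivAt_id y).const_add x).cosh).log hc1.ne'
    have h2 : HasDerivAt (fun y : ℝ => Real.log (Real.cosh (x - y)))
        (Real.sinh (x - y) * -1 / Real.cosh (x - y)) y :=
      (((hasDerivAt_id y).const_sub x).cosh).log hc2.ne'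
    have h3 := ((h1.sub h2).const_mul (1 / 2 : ℝ))
    have h4 : (fun y => F x y) = fun y => 1 / 2 * ((fun y : ℝ => Real.log (Real.cosh (x + y))) -
        fun y : ℝ => Real.log (Real.cosh (x - y))) y := by
      funext y
      unfold F
      rw [Real.log_div (Real.cosh_pos _).ne' (Real.cosh_pos _).ne']
      rfl
    rw [h4]
    have h5 : 1 / 2 * (Real.sinh (x + y) / Real.cosh (x + y) + Real.sinh (x - y) / Real.cosh (x - y)) =
        1 / 2 * (Real.sinh (x + y) * 1 / Real.cosh (x + y) -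
          Real.sinh (x - y) * -1 / Real.cosh (x - y)) := by ring
    rw [h5]
    exact h3
  have hb : ∀ y : ℝ, ‖1 / 2 * (Real.sinh (x + y) / Real.cosh (x + y) +
      Real.sinh (x - y) / Real.cosh (x - y))‖ ≤ |x| := by
    intro y
    have hc1 : 0 < Real.cosh (x + y) := Real.cosh_pos _
    have hc2 : 0 < Real.cosh (x - y) := Real.cosh_pos _
    have hc : 0 < Real.cosh x := Real.cosh_pos _
    have e1 : Real.sinh (x + y) / Real.cosh (x + y) + Real.sinh (x - y) / Real.cosh (x - y) =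
        2 * Real.sinh x * Real.cosh x / (Real.cosh (x + y) * Real.cosh (x - y)) := by
      rw [div_add_div _ _ hc1.ne' hc2.ne']
      congr 1
      rw [Real.sinh_add, Real.sinh_sub, Real.cosh_add, Real.cosh_sub]
      linear_combination (2 * Real.sinh x * Real.cosh x) * Real.cosh_sq_sub_sinh_sq y
    have e2 : Real.cosh (x + y) * Real.cosh (x - y) = Real.cosh x ^ 2 + Real.sinh y ^ 2 := by
      rw [Real.cosh_add, Real.cosh_sub]
      linear_combination (Real.cosh x ^ 2) * Real.cosh_sq_sub_sinh_sq y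
        + (Real.sinh y ^ 2) * Real.cosh_sq_sub_sinh_sq x
    rw [e1, e2, Real.norm_eq_abs]
    have e3 : 1 / 2 * (2 * Real.sinh x * Real.cosh x / (Real.cosh x ^ 2 + Real.sinh y ^ 2)) =
        Real.sinh x * Real.cosh x / (Real.cosh x ^ 2 + Real.sinh y ^ 2) := by ring
    have hp : 0 < Real.cosh x ^ 2 + Real.sinh y ^ 2 := by positivity
    rw [e3, abs_div, abs_of_pos hp, div_le_iff₀ hp, abs_mul, abs_of_pos hc]
    have h5 := abs_sinh_le x
    calc |Real.sinh x| * Real.cosh x ≤ |x| * Real.cosh x * Real.cosh x :=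
          mul_le_mul_of_nonneg_right h5 hc.le
      _ ≤ |x| * (Real.cosh x ^ 2 + Real.sinh y ^ 2) := by
          have : 0 ≤ |x| * Real.sinh y ^ 2 := by positivity
          nlinarith
  have h := Convex.norm_image_sub_le_of_norm_hasDerivWithin_le (f := fun y => F x y)
    (f' := fun y => 1 / 2 * (Real.sinh (x + y) / Real.cosh (x + y) +
      Real.sinh (x - y) / Real.cosh (x - y)))
    (s := univ) (x := 0) (y := y) (C := |x|)
    (fun y _ => (hd y).hasDerivWithinAt) (fun y _ => hb y) convex_univ trivial trivial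
  have h0 : F x 0 = 0 := by
    unfold F
    rw [add_zero, sub_zero, div_self (Real.cosh_pos x).ne', Real.log_one, mul_zero]
  simp only [h0, sub_zero, Real.norm_eq_abs] at h
  exact h

theorem ser_lint2 (μ : Measure ℝ) [IsProbabilityMeasure μ] :
    ∫⁻ x, ‖x‖ₑ ∂(ser F μ) ≤ (∫⁻ x, ‖x‖ₑ ∂μ) * (∫⁻ x, ‖x‖ₑ ∂μ) := by
  unfold ser
  rw [lintegral_map (by fun_prop) F_meas]
  calc ∫⁻ z : ℝ × ℝ, ‖F z.1 z.2‖ₑ ∂(μ.prod μ) ≤ ∫⁻ z : ℝ × ℝ, ‖z.1‖ₑ * ‖z.2‖ₑ ∂(μ.prod μ) := by
        apply lintegral_mono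
        intro z
        simp only
        rw [← ofReal_norm, ← ofReal_norm, ← ofReal_norm, ← ENNReal.ofReal_mul (norm_nonneg _)]
        exact ENNReal.ofReal_le_ofReal (F_abs_le_mul z.1 z.2)
    _ = _ := lintegral_prod_mul (by fun_prop) (by fun_prop)

theorem par_prob (ν : Measure ℝ) [IsProbabilityMeasure ν] (n : ℕ) :
    IsProbabilityMeasure (par ν n) := by
  induction n with
  | zero => exact Measure.dirac.isProbabilityMeasure
  | succ n ih =>
    change IsProbabilityMeasure (Measure.conv ν (par ν n))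
    infer_instance

theorem par_lint_n (ν : Measure ℝ) [IsProbabilityMeasure ν] (n : ℕ) :
    ∫⁻ x, ‖x‖ₑ ∂(par ν n) ≤ n * ∫⁻ x, ‖x‖ₑ ∂ν := by
  induction n with
  | zero => simp [par]
  | succ n ih =>
    have := par_prob ν n
    change ∫⁻ x, ‖x‖ₑ ∂(Measure.conv ν (par ν n)) ≤ _
    rw [Measure.conv, lintegral_map (by fun_prop) (by fun_prop)]
    calc ∫⁻ z : ℝ × ℝ, ‖z.1 + z.2‖ₑ ∂(ν.prod (par ν n)) ≤
        ∫⁻ z : ℝ × ℝ, (‖z.1‖ₑ + ‖z.2‖ₑ) ∂(ν.prod (par ν n)) :=
          lintegral_mono fun z => enorm_add_le _ _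
      _ = ∫⁻ z : ℝ × ℝ, ‖z.1‖ₑ ∂(ν.prod (par ν n)) + ∫⁻ z : ℝ × ℝ, ‖z.2‖ₑ ∂(ν.prod (par ν n)) :=
          lintegral_add_left (by fun_prop) _
      _ = ∫⁻ x, ‖x‖ₑ ∂ν + ∫⁻ x, ‖x‖ₑ ∂(par ν n) := by
          rw [lintegral_prod _ (by fun_prop), lintegral_prod _ (by fun_prop)]
          simp
      _ ≤ ∫⁻ x, ‖x‖ₑ ∂ν + n * ∫⁻ x, ‖x‖ₑ ∂ν := by gcongr
      _ = ((n + 1 : ℕ) : ENNReal) * ∫⁻ x, ‖x‖ₑ ∂ν := by push_cast; ring

theorem lawN_prob (B : ℕ) (μ : Measure ℝ) [IsProbabilityMeasure μ] (n : ℕ) :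
    IsProbabilityMeasure (lawN B μ n) := by
  induction n with
  | zero => change IsProbabilityMeasure μ; infer_instance
  | succ n ih =>
    have := ser_prob (lawN B μ n)
    exact par_prob (ser F (lawN B μ n)) B

theorem t_HT : P_HT := by
  intro B μ _ hint hB
  set m := ∫⁻ x, ‖x‖ₑ ∂μ with hm
  have hmt : m < ⊤ := (int_iff μ).1 hint
  set q : ENNReal := B * m with hq
  have hqt : q < ⊤ := ENNReal.mul_lt_top (ENNReal.natCast_lt_top B) hmt
  have hq1 : q.toReal < 1 := by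
    rw [hq, ENNReal.toReal_mul, ENNReal.toReal_natCast]
    rw [abs_int] at hB
    exact hB
  have hq1' : q ≤ 1 := by
    rw [← ENNReal.toReal_le_toReal hqt.ne ENNReal.one_ne_top, ENNReal.toReal_one]
    exact hq1.le
  have key : ∀ n, ∫⁻ x, ‖x‖ₑ ∂(lawN B μ n) ≤ q ^ n * m := by
    intro n
    induction n with
    | zero => rw [pow_zero, one_mul]; exact le_rfl
    | succ n ih =>
      have hp := lawN_prob B μ n
      have hp2 := ser_prob (lawN B μ n)
      calc ∫⁻ x, ‖x‖ₑ ∂(lawN B μ (n + 1)) ≤ B * ∫⁻ x, ‖x‖ₑ ∂(ser F (lawN B μ n)) :=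
            par_lint_n (ser F (lawN B μ n)) B
        _ ≤ B * ((q ^ n * m) * (q ^ n * m)) := by
            gcongr
            exact (ser_lint2 (lawN B μ n)).trans (mul_le_mul' ih ih)
        _ = q ^ n * (q ^ (n + 1) * m) := by rw [pow_succ, hq]; ring
        _ ≤ 1 * (q ^ (n + 1) * m) := by
            gcongr
            exact pow_le_one₀ (by simp) hq1'
        _ = q ^ (n + 1) * m := one_mul _
  refine ⟨m.toReal, max q.toReal (1 / 2), lt_max_of_lt_right (by norm_num),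
    max_lt hq1 (by norm_num), fun n => ?_⟩
  have hfin : q ^ n * m < ⊤ := ENNReal.mul_lt_top (ENNReal.pow_lt_top hqt) hmt
  refine ⟨(int_iff _).2 ((key n).trans_lt hfin), ?_⟩
  rw [abs_int]
  calc (∫⁻ x, ‖x‖ₑ ∂(lawN B μ n)).toReal ≤ (q ^ n * m).toReal :=
        ENNReal.toReal_mono hfin.ne (key n)
    _ = m.toReal * q.toReal ^ n := by rw [ENNReal.toReal_mul, ENNReal.toReal_pow, mul_comm]
    _ ≤ m.toReal * (max q.toReal (1 / 2)) ^ n := by
        gcongr
        exact le_max_left _ _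

end Pool.Agent.Q277.HEA.HT
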