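import Pool.Agent.Q291.HEA.Stm3

set_option autoImplicit false

/-! # Project HEA: job MARK -/

namespace Pool.Agent.Q277.HEA.MARK

open MeasureTheory Filter Topology Set ProbabilityTheory Pool.Agent.Q291.HEA

theorem key_aux {Ω Ω' T : Type} [MeasurableSpace Ω] [MeasurableSpace Ω'] [MeasurableSpace T]
    (P : Measure Ω) [IsProbabilityMeasure P] (f : Ω → Ω') (ξ : Ω → T) (hf : Measurable f)
    (hξ : Measurable ξ) (hind : IndepFun f ξ P) (S : Set (Ω' × T)) (hS : MeasurableSet S)
    (F : Set Ω') (hF : MeasurableSet F) (c : ℝ) (hc : 0 ≤ c)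
    (h : ∀ s, c ≤ (P.map ξ).real {t | (s, t) ∈ S}) :
    c * P.real (f ⁻¹' F) ≤ P.real (f ⁻¹' F ∩ {ω | (f ω, ξ ω) ∈ S}) := by
  have h1 := (indepFun_iff_map_prod_eq_prod_map_map hf.aemeasurable hξ.aemeasurable).1 hind
  have : IsProbabilityMeasure (P.map f) := Measure.isProbabilityMeasure_map hf.aemeasurable
  have : IsProbabilityMeasure (P.map ξ) := Measure.isProbabilityMeasure_map hξ.aemeasurable
  have h2 : P (f ⁻¹' F ∩ {ω | (f ω, ξ ω) ∈ S}) =
      ((P.map f).prod (P.map ξ)) ((F ×ˢ univ) ∩ S) := by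
    rw [← h1, Measure.map_apply (hf.prodMk hξ) ((hF.prod MeasurableSet.univ).inter hS)]
    congr 1
    ext ω
    simp
  have h3 : ENNReal.ofReal c * P (f ⁻¹' F) ≤ P (f ⁻¹' F ∩ {ω | (f ω, ξ ω) ∈ S}) := by
    rw [h2, Measure.prod_apply ((hF.prod MeasurableSet.univ).inter hS)]
    calc ENNReal.ofReal c * P (f ⁻¹' F) = ∫⁻ s in F, ENNReal.ofReal c ∂(P.map f) := by
          rw [setLIntegral_const, Measure.map_apply hf hF]
      _ ≤ ∫⁻ s in F, (P.map ξ) (Prod.mk s ⁻¹' ((F ×ˢ univ) ∩ S)) ∂(P.map f) := by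
          apply setLIntegral_mono' hF
          intro s hs
          have h4 : Prod.mk s ⁻¹' ((F ×ˢ univ) ∩ S) = {t | (s, t) ∈ S} := by
            ext t
            simp [hs]
          rw [h4]
          have h5 := h s
          rw [measureReal_def] at h5
          exact (ENNReal.ofReal_le_iff_le_toReal (measure_ne_top _ _)).2 h5
      _ ≤ _ := setLIntegral_le_lintegral _ _
  have h6 := ENNReal.toReal_mono (measure_ne_top _ _) h3
  rw [ENNReal.toReal_mul, ENNReal.toReal_ofReal hc] at h6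
  exact h6

theorem t_MARK : P_MARK := by
  intro Ω S T mΩ _ _ P _ ℱ z ξ A c hc hmono hle hz hξ hind hA hcA
  have hξm : ∀ n, Measurable (ξ n) := fun n => (hξ n).mono (hle (n + 1)) le_rfl
  have hzm : ∀ n, Measurable (z n) := fun n => (hz n).mono (hle n) le_rfl
  let E : ℕ → Set Ω := fun n => {ω | (z n ω, ξ n ω) ∈ A n}
  have hE : ∀ n, MeasurableSet[ℱ (n + 1)] (E n) := by
    intro n
    have h1 : Measurable[ℱ (n + 1)] (z n) := (hz n).mono (hmono (Nat.le_succ n)) le_rfl
    exact (h1.prodMk (hξ n)) (hA n)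
  have hEm : ∀ n, MeasurableSet (E n) := fun n => hle (n + 1) _ (hE n)
  have key : ∀ n (F : Set Ω), MeasurableSet[ℱ n] F → c * P.real F ≤ P.real (F ∩ E n) := by
    intro n F hF
    have hid : @Measurable Ω Ω mΩ (ℱ n) id := fun s hs => hle n s hs
    have hi : @IndepFun Ω Ω T mΩ (ℱ n) _ id (ξ n) P := by
      refine (@IndepFun_iff_Indep Ω Ω T mΩ (ℱ n) _ id (ξ n) P).2 ?_
      have h0 : MeasurableSpace.comap id (ℱ n) = ℱ n := MeasurableSpace.comap_id
      rw [h0]
      exact hind n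
    have hSm : @MeasurableSet (Ω × T) (@Prod.instMeasurableSpace Ω T (ℱ n) _)
        {p | (z n p.1, p.2) ∈ A n} := by
      have h1 : @Measurable (Ω × T) (S × T) (@Prod.instMeasurableSpace Ω T (ℱ n) _) _
          (fun p => (z n p.1, p.2)) :=
        @Measurable.prodMk (Ω × T) (@Prod.instMeasurableSpace Ω T (ℱ n) _) S T _ _ _ _
          (@Measurable.comp (Ω × T) Ω S (@Prod.instMeasurableSpace Ω T (ℱ n) _) (ℱ n) _ _ _ (hz n)
            (@measurable_fst Ω T (ℱ n) _)) (@measurable_snd Ω T (ℱ n) _)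
      exact h1 (hA n)
    exact @key_aux Ω Ω T mΩ (ℱ n) _ P _ id (ξ n) hid (hξm n) hi _ hSm F hF c hc.le
      (fun s => hcA n (z n s))
  have hc1 : c ≤ 1 := by
    have h1 := key 0 univ MeasurableSet.univ
    rw [probReal_univ, mul_one] at h1
    exact h1.trans (measureReal_le_one)
  let N : ℕ → ℕ → Set Ω := fun n m => ⋂ k ∈ Finset.range m, (E (n + k))ᶜ
  have hNs : ∀ n m, N n (m + 1) = N n m ∩ (E (n + m))ᶜ := by
    intro n m
    simp only [N, Finset.range_add_one, Finset.set_biInter_insert]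
    exact inter_comm _ _
  have hNm : ∀ n m, MeasurableSet[ℱ (n + m)] (N n m) := by
    intro n m
    induction m with
    | zero => simp [N]
    | succ m ih =>
      rw [hNs]
      exact MeasurableSet.inter (hmono (by omega : n + m ≤ n + (m + 1)) _ ih)
        (MeasurableSet.compl (hE (n + m)))
  have hNb : ∀ n m, P.real (N n m) ≤ (1 - c) ^ m := by
    intro n m
    induction m with
    | zero => rw [pow_zero]; exact measureReal_le_one
    | succ m ih =>
      have h1 := key (n + m) (N n m) (hNm n m)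
      have h2 : P.real (N n m ∩ E (n + m)) + P.real (N n m ∩ (E (n + m))ᶜ) = P.real (N n m) := by
        rw [← Set.sdiff_eq]
        exact measureReal_inter_add_sdiff (hEm (n + m))
      rw [hNs, pow_succ]
      nlinarith [h1, h2, ih]
  have hnull : ∀ n, P (⋂ m, N n m) = 0 := by
    intro n
    have h1 : ∀ m, P.real (⋂ m, N n m) ≤ (1 - c) ^ m := fun m =>
      (measureReal_mono (iInter_subset _ m)).trans (hNb n m)
    have h2 : P.real (⋂ m, N n m) ≤ 0 :=
      ge_of_tendsto' (tendsto_pow_atTop_nhds_zero_of_lt_one (by linarith) (by linarith)) h1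
    exact (measureReal_eq_zero_iff).1 (le_antisymm h2 measureReal_nonneg)
  have hae : ∀ᵐ ω ∂P, ∀ n, ω ∉ ⋂ m, N n m := by
    rw [ae_all_iff]
    intro n
    exact measure_eq_zero_iff_ae_notMem.1 (hnull n)
  filter_upwards [hae] with ω hω
  rw [frequently_atTop]
  intro n
  have h1 := hω n
  rw [mem_iInter] at h1
  push Not at h1
  obtain ⟨m, hm⟩ := h1
  simp only [N, mem_iInter, Finset.mem_range, mem_compl_iff] at hm
  push Not at hm
  obtain ⟨k, -, hk⟩ := hm
  exact ⟨n + k, by omega, hk⟩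

end Pool.Agent.Q277.HEA.MARK
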