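import Pool.Agent.Q291.HEA.Stm3
import Pool.Agent.Q261.HEA.GCO

set_option autoImplicit false

/-! # Project HEA: job MIX -/

namespace Pool.Agent.Q277.HEA.MIX

open MeasureTheory Filter Topology Set Pool.Agent.Q291.HEA

theorem t_MIX : P_MIX := by
  intro V E _ l r hLF K π π' h h' t ht ht1
  have hp := h.1
  have hp' := h'.1
  have e1 : (ENNReal.ofReal t).toReal = t := ENNReal.toReal_ofReal ht
  have e2 : (ENNReal.ofReal (1 - t)).toReal = 1 - t := ENNReal.toReal_ofReal (by linarith)
  constructor
  · constructor
    rw [Measure.add_apply, Measure.smul_apply, Measure.smul_apply, measure_univ, measure_univ,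
      smul_eq_mul, smul_eq_mul, mul_one, mul_one, ← ENNReal.ofReal_add ht (by linarith)]
    simp
  · intro Λ A hA
    have f1 : IsFiniteMeasure (ENNReal.ofReal t • π) := Measure.smul_finite π ENNReal.ofReal_ne_top
    have f2 : IsFiniteMeasure (ENNReal.ofReal (1 - t) • π') := Measure.smul_finite π' ENNReal.ofReal_ne_top
    have i1 := Pool.Agent.Q261.HEA.int_fv hLF K Λ hA (ENNReal.ofReal t • π)
    have i2 := Pool.Agent.Q261.HEA.int_fv hLF K Λ hA (ENNReal.ofReal (1 - t) • π')
    rw [integral_add_measure i1 i2, integral_smul_measure, integral_smul_measure, e1, e2,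
      ← h.2 Λ A hA, ← h'.2 Λ A hA, measureReal_add_apply, measureReal_ennreal_smul_apply,
      measureReal_ennreal_smul_apply, e1, e2]
    rfl

end Pool.Agent.Q277.HEA.MIX
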